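import Pool.Agent.NL.StmtsB

/-! Squad NLO (MP_d20576_an), row LBD (helper62): lower bounds for the coefficients. -/

set_option autoImplicit false

open MeasureTheory Filter Topology

noncomputable section

namespace Pool.Agent.NL.H62

variable {X : Type} [NormedAddCommGroup X] [NormedSpace ℝ X]

theorem rho_le (Ψ : X →ₗᵢ[ℝ] Z) (z : Z) (y : X) : rho Ψ z ≤ ‖z - Ψ y‖ := by
  unfold rho
  rw [← dist_eq_norm]
  exact Metric.infDist_le_dist_of_mem ⟨y, rfl⟩

theorem rho_smul (Ψ : X →ₗᵢ[ℝ] Z) (c : ℝ) (z : Z) : |c| * rho Ψ z ≤ rho Ψ (c • z) := by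
  have hne : (Set.range Ψ).Nonempty := ⟨Ψ 0, 0, rfl⟩
  by_cases hc : c = 0
  · rw [hc, abs_zero, zero_mul]
    exact Metric.infDist_nonneg
  · refine (Metric.le_infDist hne).2 ?_
    rintro _ ⟨y, rfl⟩
    have h1 := rho_le Ψ z (c⁻¹ • y)
    have h2 : c • z - Ψ y = c • (z - Ψ (c⁻¹ • y)) := by
      rw [smul_sub, map_smul, smul_smul, mul_inv_cancel₀ hc, one_smul]
    rw [dist_eq_norm, h2, norm_smul, Real.norm_eq_abs]
    exact mul_le_mul_of_nonneg_left h1 (abs_nonneg c)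

theorem lbd (hRem : RemStmt) : LbdStmt := by
  classical
  intro X _ _ f F G Ψ hC δ hδ W hW hrho b hb
  have h1 : ∀ x ∈ W, δ * |b x| ≤ rho Ψ (V G b) := by
    intro x hx
    have h2 := hRem X f F G Ψ hC W hW b hb (fun z => z = x)
    have h3 : b.filter (fun z => z = x) = Finsupp.single x (b x) := by
      ext z
      rw [Finsupp.filter_apply, Finsupp.single_apply]
      by_cases hz : z = x
      · rw [if_pos hz, if_pos hz.symm, hz]
      · rw [if_neg hz, if_neg (fun h => hz h.symm)]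
    have h4 : V G (Finsupp.single x (b x)) = b x • G x := Finsupp.linearCombination_single ℝ _ _
    rw [h3, h4] at h2
    refine le_trans ?_ ((rho_smul Ψ (b x) (G x)).trans h2)
    rw [mul_comm]
    exact mul_le_mul_of_nonneg_left (hrho x hx) (abs_nonneg _)
  refine ⟨h1, ?_⟩
  intro y
  set t : ℝ := ‖V G b - Ψ y‖ with ht
  have ht0 : 0 ≤ t := norm_nonneg _
  have hrt : rho Ψ (V G b) ≤ t := rho_le Ψ _ y
  have hl1 : l1 b ≤ W.card * (t / δ) := by
    unfold l1 Finsupp.sum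
    calc ∑ x ∈ b.support, |b x| ≤ ∑ x ∈ W, |b x| :=
          Finset.sum_le_sum_of_subset_of_nonneg hb (fun _ _ _ => abs_nonneg _)
      _ ≤ ∑ x ∈ W, t / δ := by
          refine Finset.sum_le_sum fun x hx => ?_
          rw [le_div_iff₀ hδ, mul_comm]
          exact (h1 x hx).trans hrt
      _ = W.card * (t / δ) := by rw [Finset.sum_const, nsmul_eq_mul]
  have hV : ‖V G b‖ ≤ l1 b := by
    unfold l1 V
    rw [Finsupp.linearCombination_apply]
    unfold Finsupp.sum
    refine (norm_sum_le _ _).trans (Finset.sum_le_sum fun x _ => ?_)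
    rw [norm_smul, Real.norm_eq_abs]
    calc |b x| * ‖G x‖ ≤ |b x| * 1 := mul_le_mul_of_nonneg_left (hC.bdd x) (abs_nonneg _)
      _ = |b x| := mul_one _
  have hy : ‖y‖ ≤ t + ‖V G b‖ := by
    calc ‖y‖ = ‖Ψ y‖ := (Ψ.norm_map y).symm
      _ = ‖V G b - (V G b - Ψ y)‖ := by rw [sub_sub_cancel]
      _ ≤ ‖V G b‖ + ‖V G b - Ψ y‖ := norm_sub_le _ _
      _ = t + ‖V G b‖ := by rw [ht, add_comm]
  have h5 : (1 + 2 * W.card / δ) * t = t + 2 * (W.card * (t / δ)) := by
    field_simp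
  rw [h5]
  linarith

end Pool.Agent.NL.H62
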